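import Pool.Agent.V11322.FU.Main

/-!
# The standard conjecture of Hodge type for the ring generated by the divisors of a variety with a
Fujiki relation

Let `X` be a smooth projective variety of dimension `2n` over any field, `W` any Weil cohomology
theory, and suppose that the self-intersection numbers of divisors are the `n`-th powers of a
quadratic form: `deg (z ^ (2n)) = c * q z ^ n` for all divisors `z`, with `c > 0` (the Fujiki
relation; it holds for hyperkaehler varieties in characteristic zero and is stable under
specialization). Let `D₀` be one divisor with `q D₀ > 0`. The following are equivalent: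

1. the Hodge index theorem for divisors holds with respect to `D₀` (this is known if `D₀` is ample);
2. `q z < 0` for every divisor `z` which is orthogonal to `D₀` and not homologically trivial;
3. for **every** divisor `D` with `q D > 0` (ample or not) the standard conjecture of Hodge type, with
   `D` in place of the hyperplane class, holds in all codimensions for all cycles whose class is a
   linear combination of products of divisor classes, and these cycles are homologically trivial if
   they are numerically trivial.
-/

open CategoryTheory AlgebraicGeometry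

universe u v

namespace Pool.Agent.Results.MP_ffcd14_ag.FujikiDivisorRing

open Pool.Agent.H914 Pool.Agent.H914.VarClass Pool.Agent.H914.VarClass.Obj
  Pool.Agent.W552 Pool.Agent.Y103

variable {k : Type u} [Field k] {𝒱 : VarClass k} {ops : CycleOps 𝒱}

/-- The Fujiki relation: `X` has dimension `2n`, and the degree of `z ^ (2n)` is `c * q z ^ n` for
all divisors `z`. -/
structure FujikiRelation (ops : CycleOps 𝒱) (X : 𝒱.Obj) (n : ℕ) (c : ℚ)
    (q : QuadraticForm ℚ X.Cycles) : Prop where
  dim : X.dim = 2 * n
  one_le : 1 ≤ n
  pos : 0 < c
  rel : ∀ z, X.IsCyc 1 z → X.V.degCycle (divPow ops z (2 * n) X.V.fundCycle) = c * q z ^ n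

/-- Linear combinations of products of at most `b` divisor classes (homogeneous). -/
def InDivisorRing (W : WeilCohomology.{u, v} ops) (X : 𝒱.Obj) (b : ℕ) (x : W.H X) : Prop :=
  InRing W.K (algClasses W X) 1 b x

/-- The form `q` is negative on the divisors which are orthogonal to `D` and not homologically
trivial. -/
def NegativeOnComplement (W : WeilCohomology.{u, v} ops) (X : 𝒱.Obj)
    (q : QuadraticForm ℚ X.Cycles) (D : X.Cycles) : Prop :=
  ∀ z, X.IsCyc 1 z → QuadraticMap.polar q D z = 0 → W.cl X z ≠ 0 → q z < 0

/-- **The standard conjectures of Hodge type and `D` for the products of divisors on a variety with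
a Fujiki relation, for all divisors of positive square.** -/
theorem result (W : WeilCohomology.{u, v} ops) {X : 𝒱.Obj} {n : ℕ} {c : ℚ}
    {q : QuadraticForm ℚ X.Cycles} (hF : FujikiRelation ops X n c q)
    {D₀ : X.Cycles} (hD₀ : X.IsCyc 1 D₀) (hq₀ : 0 < q D₀) :
    List.TFAE [
      HodgeTypeFor W X D₀ (InDivisorRing W X 1),
      NegativeOnComplement W X q D₀,
      ∀ D, X.IsCyc 1 D → 0 < q D → StdFor W X D (InDivisorRing W X n)] := by
  obtain ⟨hn, hn1, hc, hrel⟩ := hF
  tfae_have 1 → 2 := fun h => V11322.FU.negOn_of_hodgeOne hn hn1 hc hrel hD₀ hq₀ h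
  tfae_have 2 → 3 := by
    intro h D hD hq
    have h1 := V11322.FU.negOn_switch (W := W) hn hn1 hc hrel hD hq h
    exact Y103.Fj.hodge_fujiki hn hn1 hD hc hrel hq
      (V11322.FU.hodgeOne_of_negOn hn hn1 hc hrel hD hq h1)
  tfae_have 3 → 1 := fun h => V11322.FU.hodge_mono hn1 (h D₀ hD₀ hq₀).1
  tfae_finish

end Pool.Agent.Results.MP_ffcd14_ag.FujikiDivisorRing
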