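import Pool.Agent.V11219.LocStd

/-!
# The standard conjecture of Hodge type for products with powers of varieties with one place of
degeneration of several kinds

Let `W` be a Weil cohomology theory with algebraically closed coefficients on a class of smooth
proper varieties over a field `k` of any characteristic, and `G` a class of varieties, closed under
products, with an action of a group `Γ` with the formal properties of a Galois action (the example:
varieties over a subfield `F` of the algebraically closed field `k`, for instance a field of functions
in positive characteristic, and the Galois group of `F`; `χ` is the action on the Tate twists).

Let `X_i` be varieties of odd dimension in `G` which satisfy the standard conjectures of Lefschetz and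
of Hodge type (for example curves), and whose transcendental cohomology `T_i` (the orthogonal complement of all algebraic
classes) is concentrated in the middle degree and irreducible under all subgroups of finite index of
`Γ`. For every `i` let there be one element `g_i` of `Γ`, with `χ (g_i) = 1` (an element of an
inertia group), of one of the following kinds (different `i` may be of different kinds):

* `g_i` acts trivially on the cohomology of `Z` and of the `X_j`, `j ≠ i`, and `(g_i - 1) ^ 2 = 0` on
  `T_i`, where the rank of `g_i - 1` is arbitrary, but the rank and the multiplicities of the nonzero
  eigenvalues of the operators `(g_i - 1) (g' - 1)`, for `g'` with the same properties (for instance
  conjugates of `g_i`), have no common prime factor, or one of them is two. Example: `v_i` is a place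
  of `F` at which `X_i` has any number of ordinary double points and `Z` and the other `X_j` have good
  reduction; the condition on the multiplicities holds if the image of `Γ` is Zariski dense in the
  group of symplectic similitudes of `T_i`;
* `g_i` acts on `T_i` with finite order and its eigenvalues on `T_i` are isolated with respect to a
  group `Λ_i` of numbers which contains all eigenvalues of `g_i` on the cohomology of `Z` and of the
  `X_j`, `j ≠ i`, and some element of `Γ` has two eigenvalues on `T_i` whose quotient is not a root
  of unity. Example: the model of `X_i` at `v_i` is smooth except for one singularity
  `x_0 ^ 2 + ⋯ + x_{n-1} ^ 2 + x_n ^ (2m+1) = t`, `t` of valuation prime to `2 (2m + 1)`,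
  `2 m < dim T_i`, in residue characteristic prime to `2 (2m + 1)`, and the inertia group of `v_i` acts
  on the cohomology of `Z` and of the other `X_j` with eigenvalues which are roots of unity of odd
  order, or of order prime to `2m + 1` (for instance, if they have semistable reduction).

Let `Z` be any polarized variety in `G` which satisfies the standard conjectures of Lefschetz and of
Hodge type (for instance an abelian variety of dimension four, or a surface). Then **the standard
conjecture of Hodge type holds for the product of `Z` with arbitrary powers of the `X_i`**, with the
sum of the pull-backs of the polarizations. The conjecture is not known to be stable under products in
positive characteristic: not even for powers of curves. Nothing is assumed about Tate classes.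

The proof: every algebraic class on the product is semi-invariant under a subgroup of finite index.
The Lie algebra of the operators on `T_i` which kill all the multilinear maps from `T_i` to the
cohomology `H` of the other factors that are equivariant under a subgroup of finite index contains
operators of square zero and of rank one or two: in the first case by the theory of extremal
elements; in the second case it contains the components for eigenvalues `ν ∉ Λ_i` of the
conjugation with `g_i` of operators on `T_i` which are, together with an operator on `H`, compatible
with these multilinear maps. So it is the whole symplectic Lie algebra, and by the first fundamental
theorem the algebraic classes are combinations of products of algebraic classes of the power of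
`X_i` and arbitrary classes of the other factor,
and those of the powers of `X_i` are generated by algebraic classes of the factors and the
transcendental parts of the diagonals of pairs of factors, which are orthogonal to the other classes of
the square and have the square `dim T_i > 0`.
-/

universe u

namespace Pool.Agent.Results.MP_ffcd14_ag.LocalMonodromyProducts

open Pool.Agent.H914 Pool.Agent.H281R3.HT Pool.Agent.TH125.Gal Pool.Agent.V11219.Loc

/-- **The standard conjecture of Hodge type for products with powers of varieties with local
conditions.** -/
theorem result {k : Type u} [Field k] {𝒱 : VarClass k} {ops : CycleOps 𝒱}
    (W : WeilCohomology.{u, 0} ops) [IsAlgClosed W.K] {Γ : Type} [Group Γ] (χ : Γ →* W.Kˣ)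
    (G : Set (GVar W Γ)) {ι : Type} (X : ι → GVar W Γ) (D : ∀ i, (X i).X.Cycles) (Z : GVar W Γ)
    (h : LocalSystem χ G X D Z) (E : Z.X.Cycles) (hE : IsPolarization W Z.X E)
    (L : List (ι × ℕ)) (hL : (L.map Prod.fst).Nodup) :
    HodgeType W (nodalTower X D Z E L).X (nodalTower X D Z E L).D :=
  (hodge_local h hE L hL).1

end Pool.Agent.Results.MP_ffcd14_ag.LocalMonodromyProducts
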