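import Pool.Agent.V1141.SL.Hodge

/-!
# The standard conjecture of Hodge type for all products of varieties with a Frobenius number of
degree twice a prime number, or twice a prime power with an odd sum of slopes

Let `X 1, …, X r` be smooth projective varieties over a finite field such that the cohomology of
`X i` is spanned by classes of algebraic cycles and by eigenvectors of the Frobenius endomorphism in
the middle degree, with eigenvalues which are, up to powers, `q ^ (dim / 2)` times the conjugates of
a number `α i` in a CM field `E i` (`IsSpannedByNumber`), all of whose complex absolute values are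
one, such that `q α i` is an algebraic integer and all powers of `α i` generate `E i` (`IsWeilUnit`).

We assume the conjecture of Hodge type for each `X i` (for `dim X i ≤ 3` it is known, by the Hodge
index theorem). If the eigenvalues have multiplicity one (`OnLine`), **nothing is assumed about
products** of the `X i`. If not, we assume the Tate conjecture (in one codimension) and the conjecture
of Hodge type for `X i × X i`.

We assume that `E i` and `α i` are of one of the following two kinds; the Galois group of `E i` is
arbitrary:

* the degree of `E i` is `2 d` with a **prime number** `d`, and no norm of `α i` to `E i` or to an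
  imaginary quadratic subfield is a root of unity (`NoNormRelation`); there is **no condition on the
  slopes** (the Newton polygon);
* there are a totally real subfield `F` of `E i` with `[E i : F] = 2 ℓ ^ k` (`ℓ` a prime number) and a
  `p`-adic place of `F` such that all slopes are integral multiples of one number, divisible by `ℓ`
  at the other places, and the sum of the positive integers at this place is odd, and less than `ℓ` if
  `ℓ ≠ 2` (`HasOddSlopeSum`). For example `F = ℚ` and the `X i` are **surfaces with ordinary
  reduction and odd geometric genus** `p_g`, with `E i` of degree a power of two, or `2 ℓ ^ k` and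
  `p_g < ℓ`.

For `i < j` the Galois closure of `E j` has totally real intersection with all images of `E i`
(`IsAllowed`), or it is one exceptional field `L₀ i`, with `L₀ i ∩ E i` totally real or
`[E i : E i ∩ L₀ i]` greater than the number of the factors `X i` (`SmallIntersection`).

**Theorem.** Let `Z` be any product of copies of the varieties `X i` (any number of factors, in any
order), with a divisor `D 0 ⊞ D 1 ⊞ ⋯ ⊞ D n` satisfying the hard Lefschetz theorem on each factor (for
example an ample one; the divisors on different copies of `X i` may be different). Then: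

* homological and numerical equivalence agree on `Z`, and the standard conjecture of Hodge type
  holds for `Z`;
* for **every** smooth projective variety `U` whose Frobenius slopes are products of slopes in
  Galois fields `L ∈ 𝓛` such that each `L ∈ 𝓛` has totally real intersections with the `E i`, or is
  equal to `L₀ i`, and for every divisor on `U` with the hard Lefschetz theorem, the standard
  conjecture of Hodge type holds for `Z × U` if and only if it holds for `U`. Nothing else is assumed
  on `U`.
-/

set_option autoImplicit false

open CategoryTheory AlgebraicGeometry NumberField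

universe u v

namespace Pool.Agent.Results.MP_ffcd14_ag.PrimePowerSlopes

open Pool.Agent.H914 Pool.Agent.W534 Pool.Agent.W552 Pool.Agent.H281R3.HT Pool.Agent.Y103.Hk
  Pool.Agent.Y103.Sh Pool.Agent.Y103.Sq Pool.Agent.V1141.SL VarClass Obj WeilCohomology

/-- **The standard conjecture of Hodge type for all products of varieties with a Frobenius number of
degree twice a prime number or with an odd sum of slopes, and for their products with other
varieties.** -/
theorem result {k : Type u} [Field k] {𝒱 : VarClass k} {ops : CycleOps 𝒱}
    (W : WeilCohomology.{u, v} ops) [IsAlgClosed W.K] (p : ℕ) [Fact p.Prime]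
    (Φ : FrobSystem W p) (ι : AlgebraicClosure ℚ →+* PadicAlgCl p)
    (r : ℕ) (X : Fin r → 𝒱.Obj) (E : Fin r → Type) [∀ i, Field (E i)] [∀ i, NumberField (E i)]
    [∀ i, IsCMField (E i)] (b e : Fin r → ℕ) (α : ∀ i, E i)
    (hα : ∀ i, IsWeilUnit p (b i) (α i))
    (hdeg2 : ∀ i, (∃ d : ℕ, d.Prime ∧ Module.finrank ℚ (E i) = 2 * d ∧ NoNormRelation (α i)) ∨
      ∃ ℓ : ℕ, ℓ.Prime ∧ HasOddSlopeSum p ℓ (α i))
    (hX : ∀ i, IsSpannedByNumber Φ (X i) (e i) (α i))
    (n : ℕ) (idx : Fin (n + 1) → Fin r) (D : ∀ a, (X (idx a)).Cycles)
    (hD : ∀ a, (X (idx a)).IsCyc 1 (D a))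
    (hdeg : ∀ a, 0 < (X (idx a)).V.degCycle
      (divPow ops (D a) (X (idx a)).dim (X (idx a)).V.fundCycle))
    (hHL : ∀ a, HardLefschetz W (X (idx a)) (D a))
    (hH : ∀ a, HodgeType W (X (idx a)) (D a))
    (hX2 : ∀ i, (∀ σ, OnLine W.K (letters Φ (X i) (e i) (α i) σ)) ∨ (TateSquare Φ (X i) ∧
      ∀ a b, idx a = i → idx b = i →
        HodgeType W ((⟨X (idx a), D a⟩ : Polarized 𝒱).prod ops ⟨X (idx b), D b⟩).X
          ((⟨X (idx a), D a⟩ : Polarized 𝒱).prod ops ⟨X (idx b), D b⟩).D))
    (𝓛 : Set (IntermediateField ℚ (AlgebraicClosure ℚ)))
    (L₀ : Fin r → IntermediateField ℚ (AlgebraicClosure ℚ))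
    (hL₀ : ∀ i, IsStable (L₀ i) ∧ SmallIntersection (E i) (L₀ i) (copies idx i))
    (h𝓛 : ∀ i, ∀ L ∈ 𝓛, IsAllowed (E i) (L₀ i) L)
    (hE : ∀ i j, i < j → IsAllowed (E i) (L₀ i) (galoisClosure (E j))) :
    HomIsNum W (nest ops n fun a => ⟨X (idx a), D a⟩).X ∧
    HodgeType W (nest ops n fun a => ⟨X (idx a), D a⟩).X
      (nest ops n fun a => ⟨X (idx a), D a⟩).D ∧
    ∀ U : Polarized 𝒱, HasSlopes Φ ι 𝓛 U.X → U.X.IsCyc 1 U.D → HardLefschetz W U.X U.D →
      (HodgeType W ((nest ops n fun a => ⟨X (idx a), D a⟩).prod ops U).X
          ((nest ops n fun a => ⟨X (idx a), D a⟩).prod ops U).D ↔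
        HodgeType W U.X U.D) :=
  main_hodge (fun i => (hdeg2 i).elim (fun ⟨_, h1, h2, h3⟩ => noRel_prime (hα i) h2 h1 h3 ι)
    fun ⟨_, h1, h2⟩ => noRel_odd (hα i) h1 h2 ι) hX hD hdeg hHL hH hX2 hL₀ h𝓛 hE

end Pool.Agent.Results.MP_ffcd14_ag.PrimePowerSlopes
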